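import Mathlib
import Pool.Agent.H27.MetDim2

set_option autoImplicit false

namespace Pool.Agent.Results.MP_717ee4_co.Bound

theorem result (V : Type) [Fintype V] [DecidableEq V] (G : SimpleGraph V) [DecidableRel G.Adj]
    (hc : G.Connected) (h2 : ∀ v, 2 ≤ G.degree v) (h3 : ∃ v, 3 ≤ G.degree v) :
    ∃ S : Finset V,
      (S.card : ℤ) ≤ 2 * ((G.edgeFinset.card : ℤ) - (Fintype.card V : ℤ) + 1) - 1 ∧
      (∀ u v : V, u ≠ v → ∃ s ∈ S, G.dist s u ≠ G.dist s v) ∧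
      ∀ a b c d : V, G.Adj a b → G.Adj c d → s(a, b) ≠ s(c, d) →
        ∃ s ∈ S, min (G.dist s a) (G.dist s b) ≠ min (G.dist s c) (G.dist s d) := by
  obtain ⟨r, S, h, k1, k2, k3⟩ := H27.MetDim.main hc h2 h3
  exact ⟨S, by omega, H27.MetDim.vert hc r k1 k2, H27.MetDim.edge hc r k1 k2 k3⟩

end Pool.Agent.Results.MP_717ee4_co.Bound
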